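import Pool.Agent.R612.TG.EXT
import Pool.Agent.R612.TG.EXB
import Pool.Agent.R612.TG.REV
import Pool.Agent.R612.TG.MON
import Pool.Agent.R612.TG.BLK
import Pool.Agent.R612.TG.ANT
import Pool.Agent.R612.TG.ANT3
import Pool.Agent.R612.TG.LIM2

/-!
# A block inequality for `f(n,P,d)` with the antichain constant (MP_2bee9d_co)

Let `P` be a `d`-dimensional 0-1 pattern without empty boundary slices, such that, after reversing
some set of coordinates, the comparability graph of its 1-entries in the product order is connected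
(for instance because `P` has a 1-entry at a corner). Let `anti d K` be the largest size of an
antichain of `[K]^d`. Then `anti d K * f(m,P,d) ≤ f(Km,P,d)`, and with
`κ = liminf anti d K / K^(d-1)` one gets `κ * limsup f(n,P,d)/n^(d-1) ≤ liminf f(n,P,d)/n^(d-1)`.
Moreover `κ ≥ 1/d`, and `κ ≥ 3/4` for `d = 3`.
-/

set_option autoImplicit false

namespace Pool.Agent.Results.MP_2bee9d_co.AntichainBlocks

open Filter

/-- `f(n,P,d)`: the maximal number of ones in a `d`-dimensional `n × ⋯ × n` 0-1 matrix avoiding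
`P` -/
noncomputable def f {d : ℕ} (k : Fin d → ℕ) (P : Finset ((i : Fin d) → Fin (k i))) (n : ℕ) : ℕ :=
  sSup {m : ℕ | ∃ A : Finset (Fin d → Fin n), A.card = m ∧
    ¬ ∃ φ : (i : Fin d) → (Fin (k i) ↪o Fin n), ∀ x ∈ P, (fun i => φ i (x i)) ∈ A}

/-- `f(n,P,d) / n^(d-1)` -/
noncomputable def g {d : ℕ} (k : Fin d → ℕ) (P : Finset ((i : Fin d) → Fin (k i))) (n : ℕ) :
    ENNReal :=
  ((f k P n : ℕ) : ENNReal) / ((n : ENNReal) ^ (d - 1))

/-- the largest size of an antichain of `[K]^d` with the product order -/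
noncomputable def anti (d K : ℕ) : ℕ :=
  sSup {s : ℕ | ∃ S : Finset (Fin d → Fin K), IsAntichain (· ≤ ·) (S : Set (Fin d → Fin K)) ∧
    S.card = s}

/-- `x` lies below `y` in the product order in which the coordinates with `rev i` are reversed -/
def below {d : ℕ} (k : Fin d → ℕ) (rev : Fin d → Bool) (x y : (i : Fin d) → Fin (k i)) : Prop :=
  ∀ i, if rev i then y i ≤ x i else x i ≤ y i

/-- the comparability graph of `P` in this order is connected -/
def Connected {d : ℕ} (k : Fin d → ℕ) (rev : Fin d → Bool)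
    (P : Finset ((i : Fin d) → Fin (k i))) : Prop :=
  ∀ p ∈ P, ∀ q ∈ P, Relation.ReflTransGen
    (fun x y => x ∈ P ∧ y ∈ P ∧ (below k rev x y ∨ below k rev y x)) p q

/-- `P` has a 1-entry in each of its boundary slices -/
def Trimmed {d : ℕ} (k : Fin d → ℕ) (P : Finset ((i : Fin d) → Fin (k i))) : Prop :=
  ∀ i, (∃ x ∈ P, (x i : ℕ) = 0) ∧ (∃ x ∈ P, (x i : ℕ) + 1 = k i)

open Pool.Agent.R612.TG in
theorem core {d : ℕ} (k : Fin d → ℕ) (P : Finset ((i : Fin d) → Fin (k i))) (hne : P.Nonempty)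
    (hT : TrimP k P) (hC : ConnP k P) (K m : ℕ) :
    Pool.Agent.R612.TG.anti d K * ex k P m ≤ ex k P (K * m) := by
  obtain ⟨S, hS, hSc⟩ := anti_att d K
  obtain ⟨A, hAc, hA⟩ := ex_att k P hne m
  have h := ex_le k P (K * m) _ (blk_avoids extend k P hne hT hC K m S hS A hA)
  rwa [blk_card, hSc, hAc] at h

open Pool.Agent.R612.TG in
theorem trim_flip {d : ℕ} (k : Fin d → ℕ) (rev : Fin d → Bool)
    (P : Finset ((i : Fin d) → Fin (k i))) (hT : Trimmed k P) : TrimP k (flipP k rev P) := by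
  intro i
  obtain ⟨⟨p, hp, hp0⟩, ⟨q, hq, hq0⟩⟩ := hT i
  by_cases h : rev i = true
  · refine ⟨⟨_, Finset.mem_image_of_mem _ hq, ?_⟩, ⟨_, Finset.mem_image_of_mem _ hp, ?_⟩⟩
    · simp only [h, if_true, Fin.val_rev]; omega
    · simp only [h, if_true, Fin.val_rev]; have := (p i).2; omega
  · refine ⟨⟨_, Finset.mem_image_of_mem _ hp, ?_⟩, ⟨_, Finset.mem_image_of_mem _ hq, ?_⟩⟩
    · simp only [h]; simpa using hp0
    · simp only [h]; simpa using hq0

open Pool.Agent.R612.TG in
theorem conn_flip {d : ℕ} (k : Fin d → ℕ) (rev : Fin d → Bool)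
    (P : Finset ((i : Fin d) → Fin (k i))) (hC : Connected k rev P) :
    ConnP k (flipP k rev P) := by
  intro β c hc p' hp' q' hq'
  obtain ⟨p, hp, rfl⟩ := Finset.mem_image.1 hp'
  obtain ⟨q, hq, rfl⟩ := Finset.mem_image.1 hq'
  have key : ∀ x ∈ P, ∀ y ∈ P, below k rev x y →
      c (fun i => if rev i then (x i).rev else x i) =
        c (fun i => if rev i then (y i).rev else y i) := by
    intro x hx y hy h
    refine hc _ (Finset.mem_image_of_mem _ hx) _ (Finset.mem_image_of_mem _ hy) fun i => ?_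
    have := h i
    by_cases hr : rev i = true
    · simp only [hr, if_true] at this ⊢
      exact Fin.rev_le_rev.2 this
    · simp only [hr] at this ⊢
      simpa using this
  have h := hC p hp q hq
  induction h with
  | refl => rfl
  | tail _ h2 ih =>
    obtain ⟨hx, hy, h3⟩ := h2
    rw [ih hx (Finset.mem_image_of_mem _ hx)]
    rcases h3 with h3 | h3
    · exact key _ hx _ hy h3
    · exact (key _ hy _ hx h3).symm

open Pool.Agent.R612.TG in
/-- **Result.** Let `P` be a nonempty pattern with a 1-entry in each boundary slice whose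
comparability graph is connected in the product order with the coordinates in some set reversed.
Then (1) `anti d K * f(m,P,d) ≤ f(Km,P,d)` for all `K, m`; (2) `κ g(m) ≤ liminf g` for all
`m ≥ 1`, with `g(n) = f(n,P,d)/n^(d-1)` and `κ = liminf anti d K / K^(d-1)`; (3) hence
`κ limsup g ≤ liminf g`; (4) `κ ≥ 1/d`; (5) if `limsup g = ∞` then `g → ∞`; (6) if `d = 3` then
`κ ≥ 3/4`. -/
theorem result (d : ℕ) (hd : 0 < d) (k : Fin d → ℕ) (P : Finset ((i : Fin d) → Fin (k i)))
    (hne : P.Nonempty) (hT : Trimmed k P) (rev : Fin d → Bool) (hC : Connected k rev P) :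
    (∀ K m : ℕ, anti d K * f k P m ≤ f k P (K * m)) ∧
    (∀ m : ℕ, 0 < m → liminf (fun K : ℕ => ((anti d K : ℕ) : ENNReal) / (K : ENNReal) ^ (d - 1))
      atTop * g k P m ≤ liminf (g k P) atTop) ∧
    liminf (fun K : ℕ => ((anti d K : ℕ) : ENNReal) / (K : ENNReal) ^ (d - 1)) atTop *
      limsup (g k P) atTop ≤ liminf (g k P) atTop ∧
    (d : ENNReal)⁻¹ ≤ liminf (fun K : ℕ => ((anti d K : ℕ) : ENNReal) / (K : ENNReal) ^ (d - 1))
      atTop ∧
    (limsup (g k P) atTop = ⊤ → Tendsto (g k P) atTop (nhds ⊤)) ∧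
    (d = 3 → 3 / 4 ≤ liminf (fun K : ℕ => ((anti d K : ℕ) : ENNReal) / (K : ENNReal) ^ (d - 1))
      atTop) := by
  have hT' := trim_flip k rev P hT
  have hC' := conn_flip k rev P hC
  have hne' : (flipP k rev P).Nonempty := hne.image _
  have hfe : ∀ n, f k P n = ex k (flipP k rev P) n := fun n => (ex_flip k rev P n).symm
  have hae : ∀ K, anti d K = Pool.Agent.R612.TG.anti d K := fun _ => rfl
  have h1 : ∀ K m : ℕ, anti d K * f k P m ≤ f k P (K * m) := by
    intro K m
    rw [hfe, hfe, hae]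
    exact core k _ hne' hT' hC' K m
  have hmono : Monotone (f k P) := by
    refine monotone_nat_of_le_succ fun n => ?_
    rw [hfe, hfe]
    exact ex_monoP k _ hne' hT' n
  have h2 : ∀ m : ℕ, 0 < m →
      liminf (fun K : ℕ => ((anti d K : ℕ) : ENNReal) / (K : ENNReal) ^ (d - 1)) atTop *
        g k P m ≤ liminf (g k P) atTop := fun m hm =>
    lim2 (d - 1) (f k P) (anti d) hmono (fun K m _ _ => h1 K m) m hm
  have h4 : (d : ENNReal)⁻¹ ≤
      liminf (fun K : ℕ => ((anti d K : ℕ) : ENNReal) / (K : ENNReal) ^ (d - 1)) atTop := by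
    refine le_liminf_of_le (by isBoundedDefault) ?_
    filter_upwards [eventually_gt_atTop 0] with K hK
    have h := anti_ge d K hd hK
    have hKE : ((K : ENNReal) ^ (d - 1)) ≠ 0 := pow_ne_zero _ (by exact_mod_cast hK.ne')
    have hKT : ((K : ENNReal) ^ (d - 1)) ≠ ⊤ := ENNReal.pow_ne_top (ENNReal.natCast_ne_top K)
    have hd0 : (d : ENNReal) ≠ 0 := by exact_mod_cast hd.ne'
    rw [ENNReal.le_div_iff_mul_le (Or.inl hKE) (Or.inl hKT)]
    rw [ENNReal.inv_mul_le_iff hd0 (ENNReal.natCast_ne_top d)]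
    rw [hae]
    exact_mod_cast h
  have h3 : liminf (fun K : ℕ => ((anti d K : ℕ) : ENNReal) / (K : ENNReal) ^ (d - 1)) atTop *
      limsup (g k P) atTop ≤ liminf (g k P) atTop := by
    have hs : limsup (g k P) atTop ≤ ⨆ m : {m : ℕ // 0 < m}, g k P m := by
      refine limsup_le_of_le (by isBoundedDefault) ?_
      filter_upwards [eventually_gt_atTop 0] with m hm
      exact le_iSup (fun m : {m : ℕ // 0 < m} => g k P m) ⟨m, hm⟩
    refine (mul_le_mul_right hs _).trans ?_
    rw [ENNReal.mul_iSup]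
    exact iSup_le fun m => h2 m.1 m.2
  refine ⟨h1, h2, h3, h4, ?_, ?_⟩
  · intro h
    rw [h] at h3
    have hk : liminf (fun K : ℕ => ((anti d K : ℕ) : ENNReal) / (K : ENNReal) ^ (d - 1)) atTop ≠ 0 := by
      intro h0
      rw [h0] at h4
      have := le_antisymm h4 bot_le
      exact ENNReal.inv_ne_zero.2 (ENNReal.natCast_ne_top d) this
    rw [ENNReal.mul_top hk] at h3
    have h5 : liminf (g k P) atTop = ⊤ := top_le_iff.1 h3
    refine tendsto_of_le_liminf_of_limsup_le (le_of_eq h5.symm) le_top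
  · rintro rfl
    refine le_liminf_of_le (by isBoundedDefault) ?_
    filter_upwards [eventually_gt_atTop 0] with K hK
    have h := anti3_ge K
    have hKE : ((K : ENNReal) ^ (3 - 1)) ≠ 0 := pow_ne_zero _ (by exact_mod_cast hK.ne')
    have hKT : ((K : ENNReal) ^ (3 - 1)) ≠ ⊤ := ENNReal.pow_ne_top (ENNReal.natCast_ne_top K)
    rw [ENNReal.le_div_iff_mul_le (Or.inl hKE) (Or.inl hKT)]
    rw [hae]
    have h' : (3 : ENNReal) * (K : ENNReal) ^ 2 ≤ 4 * (Pool.Agent.R612.TG.anti 3 K : ENNReal) := by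
      exact_mod_cast h
    rw [ENNReal.div_eq_inv_mul, mul_assoc, ENNReal.inv_mul_le_iff (by norm_num) (by norm_num)]
    exact h'

end Pool.Agent.Results.MP_2bee9d_co.AntichainBlocks
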