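import Pool.Agent.R612.TG.Asm2

/-!
# Convergence of `f(n,P,d)/n^(d-1)` for duplicated planar patterns (MP_2bee9d_co)

Let `Q` be an arbitrary two-dimensional 0-1 pattern. Copy its two coordinates `d` times in total
(each of the two at least once), reverse any set of the resulting `d` coordinates and add any
numbers of empty slices at the two ends of each coordinate. For every `d`-dimensional pattern `P`
obtained in this way the sequence `f(n,P,d)/n^(d-1)` converges in `[0,∞]`.

Idea: if `A` is a `P`-avoiding subset of `[n]^d` then there is a `P`-avoiding subset of `[kn]^d`
with `k^(d-1) (1 - O(1/n)) |A|` points, obtained by a twisted block construction: on each diagonal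
line of a group of equal coordinates one places `k` consecutive copies of the corresponding (shorter)
diagonal of `[n]^g`, which is compatible with the product order because the positions are convex
combinations of the minimum, the maximum and the coordinate itself.
-/

set_option autoImplicit false

namespace Pool.Agent.Results.MP_2bee9d_co.PlanarDuplicates

open Filter

/-- The `d`-dimensional pattern obtained from the two-dimensional pattern `Q` (the set of its
1-entries, a set of functions `q` with `q b : Fin (K b)` for the two values `b` of `Bool`):
coordinate `i` of the new pattern is a copy of coordinate `side i` of `Q`, reversed if `rev i`, with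
`lo i` empty slices added in front and `hi i` empty slices added behind. -/
def pattern {d : ℕ} (side rev : Fin d → Bool) (K : Bool → ℕ) (lo hi : Fin d → ℕ)
    (Q : Finset ((b : Bool) → Fin (K b))) :
    Finset ((i : Fin d) → Fin (lo i + K (side i) + hi i)) :=
  Q.image fun q i => ⟨lo i + ((if rev i then (q (side i)).rev else q (side i) : Fin _) : ℕ), by
    have := (if rev i then (q (side i)).rev else q (side i) : Fin _).2
    omega⟩

/-- **Result.** For every pattern `P = pattern side rev K lo hi Q` in which both coordinates of `Q`
are used, the maximal number of ones in a `d`-dimensional `n × ⋯ × n` 0-1 matrix avoiding `P`,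
divided by `n^(d-1)`, converges in `[0,∞]` as `n → ∞`. -/
theorem result (d : ℕ) (side rev : Fin d → Bool) (hside : ∀ b, ∃ i, side i = b) (K : Bool → ℕ)
    (lo hi : Fin d → ℕ) (Q : Finset ((b : Bool) → Fin (K b))) :
    ∃ L : ENNReal, Tendsto
      (fun n : ℕ =>
        ((sSup {m : ℕ | ∃ A : Finset (Fin d → Fin n), A.card = m ∧
            ¬ ∃ φ : (i : Fin d) → (Fin (lo i + K (side i) + hi i) ↪o Fin n),
                ∀ x ∈ pattern side rev K lo hi Q, (fun i => φ i (x i)) ∈ A} : ℕ) : ENNReal)
          / ((n : ENNReal) ^ (d - 1)))
      atTop (nhds L) :=
  Pool.Agent.R612.TG.conv_main side hside rev K lo hi Q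

end Pool.Agent.Results.MP_2bee9d_co.PlanarDuplicates
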